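import Pool.Agent.W236.SC.QDefs

/-! SCQ-BEX: existence of bricks. -/

set_option autoImplicit false

namespace Pool.Agent.W571.SC

open Pool.Agent.W236.Qv

section

variable {S : Type*} [Fintype S] [DecidableEq S] (G : Gph S)

lemma scal1 (n : ℕ) (hn : n = 1) (φ : (Fin n → ℚ) →ₗ[ℚ] (Fin n → ℚ)) :
    ∃ c : ℚ, φ = c • LinearMap.id := by
  subst hn
  refine ⟨φ (fun _ => 1) 0, ?_⟩
  apply LinearMap.ext
  intro x
  have hx : x = x 0 • (fun _ => (1 : ℚ)) := by
    funext i
    have hi : i = 0 := Subsingleton.elim _ _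
    rw [hi]
    simp
  funext i
  have hi : i = 0 := Subsingleton.elim _ _
  rw [hi]
  conv_lhs => rw [hx]
  simp [mul_comm]

lemma scal0 (n : ℕ) (hn : n = 0) (φ ψ : (Fin n → ℚ) →ₗ[ℚ] (Fin n → ℚ)) : φ = ψ := by
  subst hn
  apply LinearMap.ext
  intro x
  exact Subsingleton.elim _ _

/-- the simple representation -/
def simp1 (r : S) : Rep S := ⟨Pi.single r 1, fun _ _ => 0⟩

lemma brick_simple (p : S → ℕ) (r : S) : Brick G p (simp1 r) := by
  have hr : (simp1 r).d r = 1 := Pi.single_eq_same r 1
  have hi : ∀ i, i ≠ r → (simp1 r).d i = 0 := fun i hi => Pi.single_eq_of_ne hi 1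
  refine ⟨⟨r, by rw [hr]; exact one_ne_zero⟩, fun φ _ => ?_⟩
  obtain ⟨c, hc⟩ := scal1 _ hr (φ r)
  refine ⟨c, fun i => ?_⟩
  by_cases h : i = r
  · subst h
    exact hc
  · exact scal0 _ (hi i h) _ _

lemma sr_same (r : S) (x : S → ℤ) :
    G.sr r x r = - x r + ∑ t, if G.adj r t then x t else 0 := by
  unfold Gph.sr
  rw [Function.update_self]

lemma sr_ne (r : S) (x : S → ℤ) {i : S} (h : i ≠ r) : G.sr r x i = x i := by
  unfold Gph.sr
  rw [Function.update_of_ne h]

lemma adj_ne {r t : S} (h : G.adj r t = true) : t ≠ r := by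
  rintro rfl
  rw [G.irr] at h
  exact Bool.false_ne_true h

lemma reach_brick (hCm : S_CmEx G) (hDim : S_CpDim G) (hB : S_BrickCp G) (hInj : S_BrickInj G)
    (p : S → ℕ) (x : S → ℤ) (h : Reach G p x) :
    0 ≤ x → ∃ M : Rep S, Brick G p M ∧ ∀ i, (M.d i : ℤ) = x i := by
  induction h with
  | base p r =>
    intro _
    refine ⟨simp1 r, brick_simple G p r, fun i => ?_⟩
    by_cases h : i = r
    · subst h
      have h1 : (simp1 i).d i = 1 := Pi.single_eq_same i 1
      rw [h1, Pi.single_eq_same]
      rfl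
    · have h1 : (simp1 r).d i = 0 := Pi.single_eq_of_ne h 1
      rw [h1, Pi.single_eq_of_ne h]
      rfl
  | step p r p' x hRot hx hsx _ ih =>
    intro _
    obtain ⟨N', hN', hd⟩ := ih hsx
    have hlast : ∀ j, G.adj r j = true → p' j < p' r := by
      intro j hj
      rw [hRot.1 j (adj_ne G hj)]
      exact (hRot.2 j hj).2
    have hns : N'.d ≠ Pi.single r 1 := by
      intro h
      have h1 : ∀ t, G.adj r t = true → x t = 0 := by
        intro t ht
        have h2 := hd t
        rw [sr_ne G r x (adj_ne G ht), h, Pi.single_eq_of_ne (adj_ne G ht)] at h2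
        exact h2.symm
      have h3 := hd r
      rw [sr_same, h, Pi.single_eq_same] at h3
      have h4 : (∑ t, if G.adj r t then x t else 0) = 0 := by
        apply Finset.sum_eq_zero
        intro t _
        split_ifs with ht
        · exact h1 t ht
        · rfl
      rw [h4] at h3
      have h5 := hx r
      simp only [Pi.zero_apply] at h5
      push_cast at h3
      omega
    have hI := hInj p' r N' hlast hN' hns
    obtain ⟨N, e, hcp, hsurj⟩ := hCm p r N' hI
    obtain ⟨hd1, c, hc, hc0, _⟩ := hDim p r N N' e hcp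
    have hc0 := hc0 hsurj
    subst hc0
    refine ⟨N, (hB p p' r N N' e hRot hcp hsurj).2 hN', fun i => ?_⟩
    by_cases h : i = r
    · subst h
      have h1 := hd i
      rw [sr_same] at h1
      have h2 : ((∑ t, if G.adj i t then N.d t else 0 : ℕ) : ℤ) =
          ∑ t, if G.adj i t then x t else 0 := by
        push_cast
        apply Finset.sum_congr rfl
        intro t _
        split_ifs with ht
        · rw [← hd1 t (adj_ne G ht), hd t, sr_ne G i x (adj_ne G ht)]
        · rfl
      have h3 : ((N'.d i + N.d i : ℕ) : ℤ) = ((∑ t, if G.adj i t then N.d t else 0 : ℕ) : ℤ) := by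
        rw [hc, add_zero]
      rw [h2] at h3
      push_cast at h3
      linarith
    · rw [← hd1 i h, hd i, sr_ne G r x h]

theorem brickEx (hReach : S_Reach G) (hCm : S_CmEx G) (hDim : S_CpDim G) (hB : S_BrickCp G)
    (hInj : S_BrickInj G) : S_BrickEx G := fun hPD p x hFr hx hq =>
  reach_brick G hCm hDim hB hInj p x (hReach hPD p x hFr hx hq) hx

end

end Pool.Agent.W571.SC
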