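import Pool.Agent.W236.SC.LDefs

/-!
# SCL-AT: polygon conditions imply lattice congruence
-/

set_option autoImplicit false

namespace Pool.Agent.W571.SC.AT

open Pool.Agent.W236.Lt

universe u v

section

variable {P : Type u} [PartialOrder P] {κ : Type v}

/-- the upper half of the local conditions -/
structure JCong (K : P → κ) : Prop where
  joinLoc : ∀ x y₁ y₂, x ⋖ y₁ → x ⋖ y₂ →
    ∃ j, IsLUB {y₁, y₂} j ∧ (K x = K y₂ → Relation.ReflTransGen (CC K) y₁ j)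
  conn : ∀ x y, K x = K y → Relation.EqvGen (CC K) x y

lemma lub_iff {a b j : P} : IsLUB {a, b} j ↔ (a ≤ j ∧ b ≤ j ∧ ∀ u, a ≤ u → b ≤ u → j ≤ u) := by
  constructor
  · intro h
    refine ⟨h.1 (by simp), h.1 (by simp), fun u hu hv => h.2 ?_⟩
    rintro c (rfl | rfl)
    · exact hu
    · exact hv
  · rintro ⟨h1, h2, h3⟩
    refine ⟨?_, fun u hu => h3 u (hu (by simp)) (hu (by simp))⟩
    rintro c (rfl | rfl)
    · exact h1
    · exact h2

lemma lub_of_le {a b : P} (h : b ≤ a) : IsLUB {a, b} a := lub_iff.2 ⟨le_rfl, h, fun _ hu _ => hu⟩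

lemma exists_cov [Finite P] {x y : P} (h : x < y) : ∃ z, x ⋖ z ∧ z ≤ y := by
  have wf : WellFounded ((· < ·) : P → P → Prop) := wellFounded_lt
  obtain ⟨m, ⟨hm1, hm2⟩, hmin⟩ := wf.has_min {z | x < z ∧ z ≤ y} ⟨y, h, le_rfl⟩
  refine ⟨m, ⟨hm1, fun c h1 h2 => ?_⟩, hm2⟩
  exact hmin c ⟨h1, h2.le.trans hm2⟩ h2

lemma ex_join [Finite P] {K : P → κ} (hK : JCong K) (x : P) :
    ∀ y z, x ≤ y → x ≤ z → ∃ j, IsLUB {y, z} j := by
  have wf : WellFounded ((· > ·) : P → P → Prop) := wellFounded_gt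
  induction x using wf.induction with
  | _ x ih =>
    intro y z hy hz
    rcases hy.eq_or_lt with rfl | hy
    · refine ⟨z, ?_⟩
      rw [Set.pair_comm]
      exact lub_of_le hz
    rcases hz.eq_or_lt with rfl | hz
    · exact ⟨y, lub_of_le hy.le⟩
    obtain ⟨y', hy1, hy2⟩ := exists_cov hy
    obtain ⟨z', hz1, hz2⟩ := exists_cov hz
    obtain ⟨w, hw, -⟩ := hK.joinLoc x y' z' hy1 hz1
    rw [lub_iff] at hw
    obtain ⟨a, ha⟩ := ih y' hy1.lt y w hy2 hw.1
    rw [lub_iff] at ha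
    obtain ⟨j, hj⟩ := ih z' hz1.lt a z (hw.2.1.trans ha.2.1) hz2
    rw [lub_iff] at hj
    refine ⟨j, lub_iff.2 ⟨ha.1.trans hj.1, hj.2.1, fun u hu1 hu2 => ?_⟩⟩
    exact hj.2.2 u (ha.2.2 u hu1 (hw.2.2 u (hy2.trans hu1) (hz2.trans hu2))) hu2

lemma claimA [Finite P] {K : P → κ} (hK : JCong K) (hex : ∀ y z : P, ∃ j, IsLUB {y, z} j)
    (x : P) : ∀ x', x ⋖ x' → K x = K x' → ∀ y, x ≤ y → ∀ j, IsLUB {y, x'} j → K y = K j := by
  have wf : WellFounded ((· > ·) : P → P → Prop) := wellFounded_gt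
  induction x using wf.induction with
  | _ x ih =>
    intro x' hx' hKx y hy j hj
    by_cases h1 : x' ≤ y
    · rw [(lub_of_le h1).unique hj]
    rcases hy.eq_or_lt with rfl | hy
    · have h2 : IsLUB {x, x'} x' := by
        rw [Set.pair_comm]
        exact lub_of_le hx'.le
      rw [← h2.unique hj]
      exact hKx
    obtain ⟨x1, hx1, hx1y⟩ := exists_cov hy
    obtain ⟨p, hp, hc⟩ := hK.joinLoc x x1 x' hx1 hx'
    have hch := hc hKx
    have key : ∀ c, Relation.ReflTransGen (CC K) x1 c → x1 ≤ c ∧ ∀ w, IsLUB {y, c} w → K y = K w := by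
      intro c hc
      induction hc with
      | refl =>
        refine ⟨le_rfl, fun w hw => ?_⟩
        rw [(lub_of_le hx1y).unique hw]
      | @tail c c' h1 h2 ih2 =>
        refine ⟨ih2.1.trans h2.1.le, fun w' hw' => ?_⟩
        obtain ⟨w, hw⟩ := hex y c
        rw [ih2.2 w hw]
        rw [lub_iff] at hw hw'
        refine ih c (lt_of_lt_of_le hx1.lt ih2.1) c' h2.1 h2.2 w hw.2.1 w' (lub_iff.2 ⟨?_, hw'.2.1, ?_⟩)
        · exact hw.2.2 w' hw'.1 (h2.1.le.trans hw'.2.1)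
        · intro u hu1 hu2
          exact hw'.2.2 u (hw.1.trans hu1) hu2
    refine (key p hch).2 j ?_
    rw [lub_iff] at hp hj ⊢
    refine ⟨hj.1, hp.2.2 j (hx1y.trans hj.1) hj.2.1, fun u hu1 hu2 => ?_⟩
    exact hj.2.2 u hu1 (hp.2.1.trans hu2)

lemma joinC [Finite P] {K : P → κ} (hK : JCong K) (hex : ∀ y z : P, ∃ j, IsLUB {y, z} j)
    (x y : P) (h : Relation.EqvGen (CC K) x y) :
    ∀ z a b, IsLUB {x, z} a → IsLUB {y, z} b → K a = K b := by
  induction h with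
  | rel x y h =>
    intro z a b ha hb
    rw [lub_iff] at ha hb
    refine claimA hK hex x y h.1 h.2 a ha.1 b (lub_iff.2 ⟨?_, hb.1, ?_⟩)
    · exact ha.2.2 b (h.1.le.trans hb.1) hb.2.1
    · intro u hu1 hu2
      exact hb.2.2 u hu2 (ha.2.1.trans hu1)
  | refl x =>
    intro z a b ha hb
    rw [ha.unique hb]
  | symm x y _ ih =>
    intro z a b ha hb
    exact (ih z b a hb ha).symm
  | trans x y w _ _ ih1 ih2 =>
    intro z a b ha hb
    obtain ⟨c, hc⟩ := hex y z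
    exact (ih1 z a c ha hc).trans (ih2 z c b hc hb)

lemma half [Finite P] {K : P → κ} (hK : JCong K) (hb : ∃ b : P, ∀ x, b ≤ x) :
    (∀ x y : P, ∃ j, IsLUB {x, y} j) ∧
    (∀ x y z a b, K x = K y → IsLUB {x, z} a → IsLUB {y, z} b → K a = K b) := by
  obtain ⟨b, hb⟩ := hb
  have hex : ∀ x y : P, ∃ j, IsLUB {x, y} j := fun x y => ex_join hK b x y (hb x) (hb y)
  exact ⟨hex, fun x y z a b h => joinC hK hex x y (hK.conn x y h) z a b⟩

lemma dual_CC {K : P → κ} {a b : P} :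
    CC (fun x : Pᵒᵈ => K (OrderDual.ofDual x)) (OrderDual.toDual a) (OrderDual.toDual b) ↔
      CC K b a := by
  unfold CC
  rw [toDual_covBy_toDual_iff]
  constructor
  · rintro ⟨h1, h2⟩
    exact ⟨h1, h2.symm⟩
  · rintro ⟨h1, h2⟩
    exact ⟨h1, h2.symm⟩

lemma dual_chain {K : P → κ} {a b : P} (h : Relation.ReflTransGen (CC K) a b) :
    Relation.ReflTransGen (CC (fun x : Pᵒᵈ => K (OrderDual.ofDual x))) (OrderDual.toDual b)
      (OrderDual.toDual a) := by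
  induction h with
  | refl => exact Relation.ReflTransGen.refl
  | tail _ h ih => exact Relation.ReflTransGen.head (dual_CC.2 h) ih

lemma dual_conn {K : P → κ} {a b : P} (h : Relation.EqvGen (CC K) a b) :
    Relation.EqvGen (CC (fun x : Pᵒᵈ => K (OrderDual.ofDual x))) (OrderDual.toDual a)
      (OrderDual.toDual b) := by
  induction h with
  | rel x y h => exact Relation.EqvGen.symm _ _ (Relation.EqvGen.rel _ _ (dual_CC.2 h))
  | refl x => exact Relation.EqvGen.refl _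
  | symm x y _ ih => exact Relation.EqvGen.symm _ _ ih
  | trans x y w _ _ ih1 ih2 => exact Relation.EqvGen.trans _ _ _ ih1 ih2

lemma glb_iff {a b j : P} : IsGLB {a, b} j ↔ (j ≤ a ∧ j ≤ b ∧ ∀ u, u ≤ a → u ≤ b → u ≤ j) := by
  constructor
  · intro h
    refine ⟨h.1 (by simp), h.1 (by simp), fun u hu hv => h.2 ?_⟩
    rintro c (rfl | rfl)
    · exact hu
    · exact hv
  · rintro ⟨h1, h2, h3⟩
    refine ⟨?_, fun u hu => h3 u (hu (by simp)) (hu (by simp))⟩
    rintro c (rfl | rfl)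
    · exact h1
    · exact h2

lemma glb_dual {a b m : P} : IsLUB {OrderDual.toDual a, OrderDual.toDual b} (OrderDual.toDual m) ↔
    IsGLB {a, b} m := by
  rw [lub_iff, glb_iff]
  constructor
  · rintro ⟨h1, h2, h3⟩
    exact ⟨h1, h2, fun u => h3 (OrderDual.toDual u)⟩
  · rintro ⟨h1, h2, h3⟩
    exact ⟨h1, h2, fun u => h3 (OrderDual.ofDual u)⟩

lemma dual_JCong {K : P → κ} (hK : PolyCong K) :
    JCong (fun x : Pᵒᵈ => K (OrderDual.ofDual x)) := by
  constructor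
  · intro x y₁ y₂ h1 h2
    have g1 : OrderDual.ofDual y₁ ⋖ OrderDual.ofDual x := ofDual_covBy_ofDual_iff.2 h1
    have g2 : OrderDual.ofDual y₂ ⋖ OrderDual.ofDual x := ofDual_covBy_ofDual_iff.2 h2
    obtain ⟨m, hm1, hm2⟩ := hK.meetLoc (OrderDual.ofDual x) (OrderDual.ofDual y₁)
      (OrderDual.ofDual y₂) g1 g2
    have g3 := (glb_dual (a := OrderDual.ofDual y₁) (b := OrderDual.ofDual y₂) (m := m)).2 hm1
    exact ⟨OrderDual.toDual m, g3, fun h => dual_chain (hm2 h)⟩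
  · intro x y h
    exact dual_conn (hK.conn (OrderDual.ofDual x) (OrderDual.ofDual y) h)

end

/-- (AT) -/
theorem at_ : S_AT.{u, v} := by
  intro P _ _ κ K hb ht hK
  obtain ⟨h1, h2⟩ := half (K := K) ⟨hK.joinLoc, hK.conn⟩ hb
  have hb' : ∃ b : Pᵒᵈ, ∀ x, b ≤ x := by
    obtain ⟨t, ht⟩ := ht
    exact ⟨OrderDual.toDual t, fun x => ht (OrderDual.ofDual x)⟩
  have : Finite Pᵒᵈ := ‹Finite P›
  obtain ⟨h3, h4⟩ := half (dual_JCong hK) hb'
  refine ⟨h1, ?_, h2, ?_⟩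
  · intro x y
    obtain ⟨j, hj⟩ := h3 (OrderDual.toDual x) (OrderDual.toDual y)
    exact ⟨OrderDual.ofDual j, glb_dual.1 hj⟩
  · intro x y z a b h ha hb
    exact h4 (OrderDual.toDual x) (OrderDual.toDual y) (OrderDual.toDual z) (OrderDual.toDual a)
      (OrderDual.toDual b) h (glb_dual.2 ha) (glb_dual.2 hb)

end Pool.Agent.W571.SC.AT
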